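import Pool.Agent.H59.FE.Q3
import Pool.Agent.H59.SD.Rad
import Pool.Agent.H59.PO.Top
import Pool.Agent.H83.BF.ClassFive

/-! Splitting automorphisms: the pairs `⟨g, φ^i g⟩` of small class. -/

set_option autoImplicit false

open scoped commutatorElement

namespace Pool.Agent.H59.FE

open Pool.Agent.H76.MB (LF rad)
open Pool.Agent.H59.PO (Spl Orb prod_tail comm_list orb_finite orb_pgroup mem_orb orb_pow_mem)
open Pool.Agent.H59.SD (bar bar_pow spl_bar)
open Pool.Agent.H83.BF (pw)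
open H81.SC (cj cm)

universe u

variable {G : Type u} [Group G]

theorem mem_rad_comm {p : ℕ} {φ : MulAut G} (hS : Spl p φ) (x : G)
    (h : ∀ (c : G) (i : ℕ), Commute (c⁻¹ * x * c) ((φ ^ i) (c⁻¹ * x * c))) : x ∈ rad G := by
  have h1 : ∀ (i : ℕ), ¬ p ∣ i → ∀ a : G, Commute x (a * (φ ^ i) x * a⁻¹) := by
    intro i hi a
    obtain ⟨c, hc⟩ := H81.SC.lang hS.prime hS.cop hS.pow hS.split hS.nilp hi a
    have h3 := h c i
    have h4 : a * (φ ^ i) x * a⁻¹ = c * (φ ^ i) (c⁻¹ * x * c) * c⁻¹ := by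
      rw [hc, map_mul, map_mul, map_inv]
      group
    have h5 : x = c * (c⁻¹ * x * c) * c⁻¹ := by group
    rw [h4]
    show x * _ = _ * x
    have h6 := h3.eq
    calc x * (c * (φ ^ i) (c⁻¹ * x * c) * c⁻¹) =
        c * ((c⁻¹ * x * c) * (φ ^ i) (c⁻¹ * x * c)) * c⁻¹ := by group
      _ = c * ((φ ^ i) (c⁻¹ * x * c) * (c⁻¹ * x * c)) * c⁻¹ := by rw [h6]
      _ = _ := by group
  have h2 : ∀ a : G, Commute x (a * x * a⁻¹) := by
    intro a
    have h3 := prod_tail hS.prime x (hS.split x)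
    have h4 : a * x * a⁻¹ = (a * x⁻¹ * a⁻¹)⁻¹ := by group
    rw [h4]
    refine Commute.inv_right ?_
    have h5 : a * x⁻¹ * a⁻¹ =
        ((List.range (p - 1)).map (fun i => a * (φ ^ (i + 1)) x * a⁻¹)).prod := by
      rw [h3]
      have h6 := map_list_prod (MulAut.conj a).toMonoidHom
        ((List.range (p - 1)).map (fun i => (φ ^ (i + 1)) x))
      rw [List.map_map] at h6
      exact h6
    rw [h5]
    apply comm_list
    intro b hb
    obtain ⟨i, hi, rfl⟩ := List.mem_map.1 hb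
    rw [List.mem_range] at hi
    refine h1 (i + 1) ?_ a
    intro hd
    have := Nat.le_of_dvd (Nat.succ_pos i) hd
    omega
  have h4 := Pool.Agent.H83.BF.normalClosure_singleton_comm x h2
  refine Pool.Agent.H76.MB.mem_rad.2 ⟨Subgroup.normalClosure {x}, ⟨inferInstance, ?_⟩,
    Subgroup.subset_normalClosure rfl⟩
  refine Pool.Agent.H76.MB.LF_of_comm (fun a b => Subtype.ext (h4 a a.2 b b.2)) ?_
  exact Pool.Agent.H76.MB.fin_sub (fun a => H81.SC.ord_ne hS.prime (hS.cop a)) _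

theorem rad_bar : rad (G ⧸ rad G) = ⊥ :=
  Pool.Agent.H76.MB.rad_quot G (rad (G ⧸ rad G)) (Pool.Agent.H76.MB.rad_normal _)
    (Pool.Agent.H76.MB.rad_LF _)

theorem lift_qn {q : ℕ} (hq : q.Prime) (ht : ∀ g : G, IsOfFinOrder g) (x : G ⧸ rad G) (n : ℕ)
    (hx : x ^ q ^ n = 1) : ∃ (g : G) (e : ℕ), g ^ q ^ e = 1 ∧ QuotientGroup.mk' (rad G) g = x := by
  obtain ⟨g, rfl⟩ := QuotientGroup.mk'_surjective (rad G) x
  rcases Nat.eq_zero_or_pos n with h0 | h0
  · subst h0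
    rw [pow_zero, pow_one] at hx
    exact ⟨1, 0, one_pow _, by rw [map_one, hx]⟩
  have hn : orderOf g ≠ 0 := (orderOf_pos_iff.mpr (ht g)).ne'
  obtain ⟨a, m, hm, hnm⟩ := Nat.exists_eq_pow_mul_and_not_dvd hn q hq.ne_one
  have hcop : Nat.Coprime m (q ^ n) :=
    (((Nat.Prime.coprime_iff_not_dvd hq).mpr hm).symm).pow_right n
  obtain ⟨k, hk⟩ := Nat.exists_mul_mod_eq_one_of_coprime hcop (Nat.one_lt_pow h0.ne' hq.one_lt)
  refine ⟨g ^ (m * k), a, ?_, ?_⟩
  · rw [← pow_mul]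
    have h1 : m * k * q ^ a = orderOf g * k := by
      rw [hnm]
      ring
    rw [h1, pow_mul, pow_orderOf_eq_one, one_pow]
  · rw [map_pow]
    have h2 : m * k = q ^ n * (m * k / q ^ n) + 1 := by
      have := Nat.div_add_mod (m * k) (q ^ n)
      omega
    rw [h2, pow_add, pow_mul, hx, one_pow, one_mul, pow_one]

/-- the pair `⟨g, φ^i g⟩` -/
def Pr (φ : MulAut G) (g : G) (i : ℕ) : Subgroup G := Subgroup.closure {g, (φ ^ i) g}

theorem pr_le {p : ℕ} {φ : MulAut G} (hS : Spl p φ) (g : G) (i : ℕ) : Pr φ g i ≤ Orb p φ g := by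
  unfold Pr
  rw [Subgroup.closure_le]
  rintro x (rfl | hx)
  · exact mem_orb hS x
  · rw [Set.mem_singleton_iff] at hx
    rw [hx]
    exact orb_pow_mem hS g i

theorem pr_map (φ : MulAut G) (g : G) (i : ℕ) :
    (Pr φ g i).map (QuotientGroup.mk' (rad G)) = Pr (bar φ) (QuotientGroup.mk' (rad G) g) i := by
  unfold Pr
  rw [MonoidHom.map_closure, Set.image_pair, bar_pow]

/-- descending step -/
theorem order_le {p : ℕ} {φ : MulAut G} (hS : Spl p φ) (hr : rad G = ⊥) {q : ℕ}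
    (hcomm : ∀ (n : ℕ), (∀ (k : G) (m : ℕ), k ^ q ^ m = 1 → k ^ q ^ (n + 2) = 1) →
      ∀ (a : G) (m : ℕ), a ^ q ^ m = 1 →
        ∀ i : ℕ, Commute (a ^ q ^ (n + 1)) (((φ ^ i) a) ^ q ^ (n + 1))) (e : ℕ) :
    (∀ (k : G) (m : ℕ), k ^ q ^ m = 1 → k ^ q ^ e = 1) →
      ∀ (k : G) (m : ℕ), k ^ q ^ m = 1 → k ^ q = 1 := by
  induction e with
  | zero =>
    intro h k m hk
    have := h k m hk
    rw [pow_zero, pow_one] at this
    rw [this, one_pow]
  | succ e ih =>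
    intro h
    rcases e with _ | n
    · intro k m hk
      have := h k m hk
      rwa [zero_add, pow_one] at this
    · apply ih
      intro k m hk
      have h1 : k ^ q ^ (n + 1) ∈ rad G := by
        apply mem_rad_comm hS
        intro c i
        have e1 : c⁻¹ * k ^ q ^ (n + 1) * c = (c⁻¹ * k * c) ^ q ^ (n + 1) := by
          have := conj_pow (i := q ^ (n + 1)) (a := c⁻¹) (b := k)
          rw [inv_inv] at this
          exact this.symm
        have e2 : (c⁻¹ * k * c) ^ q ^ m = 1 := by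
          have := conj_pow (i := q ^ m) (a := c⁻¹) (b := k)
          rw [inv_inv] at this
          rw [this, hk]
          group
        rw [e1, map_pow]
        exact hcomm n h _ m e2 i
      rw [hr, Subgroup.mem_bot] at h1
      exact h1

theorem pr_exp {p : ℕ} {φ : MulAut G} (hS : Spl p φ) {q : ℕ} (hq : q.Prime) {e : ℕ}
    (h : ∀ (k : G) (m : ℕ), k ^ q ^ m = 1 → k ^ q ^ e = 1) (a : G) (m : ℕ)
    (ha : a ^ q ^ m = 1) (i : ℕ) : ∀ k ∈ Pr φ a i, k ^ q ^ e = 1 := by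
  intro k hk
  obtain ⟨n, hn⟩ := orb_pgroup hS hq m a ha ⟨k, pr_le hS a i hk⟩
  apply h k n
  have := congrArg Subtype.val hn
  simpa using this

/-- the hypothesis on the elements of `q`-power order -/
def Hyp (φ : MulAut G) (q c : ℕ) : Prop :=
  ∀ (g : G) (m : ℕ), g ^ q ^ m = 1 → ∀ i : ℕ, (Pr φ g i).lowerCentralSeries c = ⊥

theorem hyp_bar {φ : MulAut G} (ht : ∀ g : G, IsOfFinOrder g) {q c : ℕ} (hq : q.Prime)
    (h : Hyp φ q c) : Hyp (bar φ) q c := by
  intro y m hy i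
  obtain ⟨g, e, hg, rfl⟩ := lift_qn hq ht y m hy
  rw [← pr_map, ← Subgroup.map_lowerCentralSeries, h g e hg i, Subgroup.map_bot]

theorem bdd_bar {q e : ℕ} (hq : q.Prime) (ht : ∀ g : G, IsOfFinOrder g)
    (h : ∀ (k : G) (m : ℕ), k ^ q ^ m = 1 → k ^ q ^ e = 1) :
    ∀ (k : G ⧸ rad G) (m : ℕ), k ^ q ^ m = 1 → k ^ q ^ e = 1 := by
  intro y m hy
  obtain ⟨g, n, hg, rfl⟩ := lift_qn hq ht y m hy
  rw [← map_pow, h g n hg, map_one]

theorem comm2 {p : ℕ} {φ : MulAut G} (hS : Spl p φ) (h : Hyp φ 2 3) (n : ℕ)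
    (hb : ∀ (k : G) (m : ℕ), k ^ 2 ^ m = 1 → k ^ 2 ^ (n + 2) = 1) (a : G) (m : ℕ)
    (ha : a ^ 2 ^ m = 1) (i : ℕ) : Commute (a ^ 2 ^ (n + 1)) (((φ ^ i) a) ^ 2 ^ (n + 1)) :=
  pow_comm_two (h a m ha i) n (pr_exp hS Nat.prime_two hb a m ha i) a _
    (Subgroup.subset_closure (Set.mem_insert _ _))
    (Subgroup.subset_closure (Set.mem_insert_of_mem _ rfl))

theorem comm3 {p : ℕ} {φ : MulAut G} (hS : Spl p φ) (h : Hyp φ 3 5) (n : ℕ)
    (hb : ∀ (k : G) (m : ℕ), k ^ 3 ^ m = 1 → k ^ 3 ^ (n + 2) = 1) (a : G) (m : ℕ)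
    (ha : a ^ 3 ^ m = 1) (i : ℕ) : Commute (a ^ 3 ^ (n + 1)) (((φ ^ i) a) ^ 3 ^ (n + 1)) := by
  have : Fact (Nat.Prime 3) := ⟨Nat.prime_three⟩
  have hexp := pr_exp hS Nat.prime_three hb a m ha i
  have h5 := Pool.Agent.H83.BF.class_five a ((φ ^ i) a) (h a m ha i)
  have hle := pr_le hS a i
  have hof : Finite (Orb p φ a) := orb_finite hS a
  have hf : Finite (Subgroup.closure {a, (φ ^ i) a}) :=
    Finite.of_injective _ (Subgroup.inclusion_injective hle)
  have hP : IsPGroup 3 (Subgroup.closure {a, (φ ^ i) a}) :=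
    (orb_pgroup hS Nat.prime_three m a ha).of_injective (Subgroup.inclusion hle)
      (Subgroup.inclusion_injective hle)
  have h1 := Pool.Agent.H83.BF.chain (p := 3) (by decide) (Subgroup.closure {a, (φ ^ i) a}) hP 1
    (by rw [pow_one]; exact h5) (n + 1) (by omega) a ((φ ^ i) a)
    (Subgroup.subset_closure (Set.mem_insert _ _))
    (Subgroup.subset_closure (Set.mem_insert_of_mem _ rfl))
  have h2 : pw (3 ^ (n + 1 + 1)) (Subgroup.closure {a, (φ ^ i) a}) ≤ ⊥ := by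
    unfold pw
    rw [Subgroup.closure_le]
    rintro _ ⟨k, hk, rfl⟩
    exact hexp k hk
  exact commutatorElement_eq_one_iff_commute.1 (Subgroup.mem_bot.1 (h2 h1))

/-- descending step for a single element -/
theorem down {p : ℕ} {φ : MulAut G} (hS : Spl p φ) (hr : rad G = ⊥) {q e : ℕ} (k : G)
    (hcomm : ∀ a : G, a ^ q ^ (e + 1) = 1 → ∀ i : ℕ, Commute (a ^ q ^ e) (((φ ^ i) a) ^ q ^ e))
    (hk : k ^ q ^ (e + 1) = 1) : k ^ q ^ e = 1 := by
  have h1 : k ^ q ^ e ∈ rad G := by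
    apply mem_rad_comm hS
    intro c i
    have e1 : c⁻¹ * k ^ q ^ e * c = (c⁻¹ * k * c) ^ q ^ e := by
      have := conj_pow (i := q ^ e) (a := c⁻¹) (b := k)
      rw [inv_inv] at this
      exact this.symm
    have e2 : (c⁻¹ * k * c) ^ q ^ (e + 1) = 1 := by
      have := conj_pow (i := q ^ (e + 1)) (a := c⁻¹) (b := k)
      rw [inv_inv] at this
      rw [this, hk]
      group
    rw [e1, map_pow]
    exact hcomm _ e2 i
  rw [hr, Subgroup.mem_bot] at h1
  exact h1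

theorem four {p : ℕ} {φ : MulAut G} (hS : Spl p φ) (hr : rad G = ⊥) (h : Hyp φ 2 3) (m : ℕ) :
    ∀ k : G, k ^ 2 ^ m = 1 → k ^ 2 ^ 2 = 1 := by
  induction m with
  | zero =>
    intro k hk
    rw [pow_zero, pow_one] at hk
    rw [hk, one_pow]
  | succ m ih =>
    intro k hk
    by_cases hm : m + 1 ≤ 2
    · obtain ⟨d, hd⟩ := Nat.exists_eq_add_of_le hm
      have e1 : 2 ^ 2 = 2 ^ (m + 1) * 2 ^ d := by rw [← pow_add, ← hd]
      rw [e1, pow_mul, hk, one_pow]
    · obtain ⟨n, rfl⟩ : ∃ n, m = n + 2 := ⟨m - 2, by omega⟩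
      apply ih
      refine down hS hr (q := 2) (e := n + 2) k (fun a ha i => ?_) hk
      exact pow_comm_two' (h a _ ha i) n a ((φ ^ i) a)
        (Subgroup.subset_closure (Set.mem_insert _ _))
        (Subgroup.subset_closure (Set.mem_insert_of_mem _ rfl)) ha
        (by rw [← map_pow, ha, map_one])

theorem three' {p : ℕ} {φ : MulAut G} (hS : Spl p φ) (hr : rad G = ⊥) (h : Hyp φ 3 3) (m : ℕ) :
    ∀ k : G, k ^ 3 ^ m = 1 → k ^ 3 = 1 := by
  induction m with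
  | zero =>
    intro k hk
    rw [pow_zero, pow_one] at hk
    rw [hk, one_pow]
  | succ m ih =>
    intro k hk
    rcases m with _ | n
    · rwa [zero_add, pow_one] at hk
    · apply ih
      refine down hS hr (q := 3) (e := n + 1) k (fun a ha i => ?_) hk
      exact pow_comm_odd (by decide) (h a _ ha i) n a ((φ ^ i) a)
        (Subgroup.subset_closure (Set.mem_insert _ _))
        (Subgroup.subset_closure (Set.mem_insert_of_mem _ rfl)) ha
        (by rw [← map_pow, ha, map_one])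

/-- elements of order two -/
theorem rad2 {p : ℕ} {φ : MulAut G} (hS : Spl p φ) (h : Hyp φ 2 3) :
    ∀ (n : ℕ) (g : G), g ^ 2 ^ n = 1 → g ∈ rad G := by
  have ht : ∀ g : G, IsOfFinOrder g := fun g => H81.SC.ord_ne hS.prime (hS.cop g)
  have hB := spl_bar hS
  have h1 := order_le hB rad_bar (q := 2)
    (fun n hb a m ha i => comm2 hB (hyp_bar ht Nat.prime_two h) n hb a m ha i) 2
    (fun k m hk => four hB rad_bar (hyp_bar ht Nat.prime_two h) m k hk)
  intro n g hg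
  have hy : (QuotientGroup.mk' (rad G) g) ^ 2 ^ n = 1 := by rw [← map_pow, hg, map_one]
  apply (QuotientGroup.eq_one_iff (N := rad G) g).1
  show QuotientGroup.mk' (rad G) g = 1
  rw [← Subgroup.mem_bot, ← rad_bar]
  apply mem_rad_comm hB
  intro c i
  obtain ⟨y, hyd⟩ : ∃ y, y = c⁻¹ * QuotientGroup.mk' (rad G) g * c := ⟨_, rfl⟩
  have hyn : y ^ 2 ^ n = 1 := by
    have := conj_pow (i := 2 ^ n) (a := c⁻¹) (b := QuotientGroup.mk' (rad G) g)
    rw [inv_inv] at this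
    rw [hyd, this, hy]
    group
  rw [← hyd]
  have hsq : ∀ k ∈ Pr (bar φ) y i, k ^ 2 ^ 1 = 1 :=
    pr_exp hB Nat.prime_two (e := 1) (fun k m hk => by rw [pow_one]; exact h1 k m hk) y n hyn i
  have m1 : y ∈ Pr (bar φ) y i := Subgroup.subset_closure (Set.mem_insert _ _)
  have m2 : (bar φ ^ i) y ∈ Pr (bar φ) y i :=
    Subgroup.subset_closure (Set.mem_insert_of_mem _ rfl)
  have s1 := hsq _ m1
  have s2 := hsq _ m2
  have s3 := hsq _ (mul_mem m1 m2)
  rw [pow_one, pow_two] at s1 s2 s3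
  show y * (bar φ ^ i) y = (bar φ ^ i) y * y
  have t1 : y⁻¹ = y := inv_eq_of_mul_eq_one_left s1
  have t2 : ((bar φ ^ i) y)⁻¹ = (bar φ ^ i) y := inv_eq_of_mul_eq_one_left s2
  have t3 := inv_eq_of_mul_eq_one_left s3
  rw [mul_inv_rev, t1, t2] at t3
  exact t3.symm

/-- the class two theorem with the law in the quotient -/
theorem bar_law_one {p : ℕ} {φ : MulAut G} (hS : Spl p φ)
    (r2 : ∀ (n : ℕ) (g : G), g ^ 2 ^ n = 1 → g ∈ rad G)
    {q : ℕ} (hq : q.Prime) (h2 : q ≠ 2)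
    (law : ∀ (x : G ⧸ rad G) (i : ℕ), x ^ q = 1 → Commute (cm x ((bar φ ^ i) x)) x)
    (x : G ⧸ rad G) (hx : x ^ q = 1) : x = 1 := by
  have ht : ∀ g : G, IsOfFinOrder g := fun g => H81.SC.ord_ne hS.prime (hS.cop g)
  have hB := spl_bar hS
  have ho : ∀ y : G ⧸ rad G, Nat.Coprime (orderOf y) 2 :=
    Pool.Agent.H59.SD.cop_bar Nat.prime_two ht r2
  by_cases h1 : bar φ = 1
  · apply H81.SC.eq_one_of_pow (p := p) (hB.cop x)
    have h3 := hB.split x
    rw [h1] at h3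
    have h4 : (fun i : ℕ => ((1 : MulAut (G ⧸ rad G)) ^ i) x) = fun _ => x := by
      funext i
      rw [one_pow]
      rfl
    rw [h4, List.map_const', List.prod_replicate, List.length_range] at h3
    exact h3
  · have : Fact p.Prime := ⟨hS.prime⟩
    have hord : orderOf (bar φ) = p := orderOf_eq_prime hB.pow h1
    have h3 := H81.SC.ncl (x := x) fun g y h =>
      Pool.Agent.H59.SD.firstX hB.prime hB.cop ho hord hB.split hB.nilp hq h2
        (Pool.Agent.H59.SD.triv_bar ht) law x g y h hx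
    have h4 : Group.IsNilpotent (Subgroup.normalClosure {x}) :=
      Subgroup.isNilpotent_of_lowerCentralSeries_eq_bot h3
    have h5 : LF (Subgroup.normalClosure {x}) := by
      apply Pool.Agent.H59.SD.LF_nil
      apply Pool.Agent.H76.MB.fin_sub
      intro y
      exact H81.SC.ord_ne hB.prime (hB.cop y)
    have h6 := Pool.Agent.H76.MB.rad_quot G (Subgroup.normalClosure {x}) inferInstance h5
    have h7 : x ∈ Subgroup.normalClosure {x} := Subgroup.subset_normalClosure rfl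
    rwa [h6, Subgroup.mem_bot] at h7

/-- elements of order three -/
theorem rad3 {p : ℕ} {φ : MulAut G} (hS : Spl p φ)
    (r2 : ∀ (n : ℕ) (g : G), g ^ 2 ^ n = 1 → g ∈ rad G)
    (h : Hyp φ 3 3 ∨
      ((∃ e : ℕ, ∀ (k : G) (m : ℕ), k ^ 3 ^ m = 1 → k ^ 3 ^ e = 1) ∧ Hyp φ 3 5)) :
    ∀ (n : ℕ) (g : G), g ^ 3 ^ n = 1 → g ∈ rad G := by
  have ht : ∀ g : G, IsOfFinOrder g := fun g => H81.SC.ord_ne hS.prime (hS.cop g)
  have hB := spl_bar hS
  have h1 : ∀ (k : G ⧸ rad G) (m : ℕ), k ^ 3 ^ m = 1 → k ^ 3 = 1 := by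
    rcases h with h | ⟨⟨e, hb⟩, h⟩
    · exact fun k m hk => three' hB rad_bar (hyp_bar ht Nat.prime_three h) m k hk
    · exact order_le hB rad_bar (q := 3)
        (fun n hb a m ha i => comm3 hB (hyp_bar ht Nat.prime_three h) n hb a m ha i) e
        (bdd_bar Nat.prime_three ht hb)
  have law : ∀ (x : G ⧸ rad G) (i : ℕ), x ^ 3 = 1 → Commute (cm x ((bar φ ^ i) x)) x := by
    intro x i hx
    have hexp : ∀ k ∈ Pr (bar φ) x i, k ^ 3 ^ 1 = 1 :=
      pr_exp hB Nat.prime_three (e := 1) (fun k m hk => by rw [pow_one]; exact h1 k m hk) x 1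
        (by rw [pow_one]; exact hx) i
    have m1 : x ∈ Pr (bar φ) x i := Subgroup.subset_closure (Set.mem_insert _ _)
    have m2 : (bar φ ^ i) x ∈ Pr (bar φ) x i :=
      Subgroup.subset_closure (Set.mem_insert_of_mem _ rfl)
    have h3 := Pool.Agent.H83.BF.comm_conj_three (Γ := Pr (bar φ) x i)
      (fun k => Subtype.ext (by
        have := hexp (k : G ⧸ rad G) k.2
        rw [pow_one] at this
        rw [Subgroup.coe_pow, this, Subgroup.coe_one])) ⟨x, m1⟩ ⟨(bar φ ^ i) x, m2⟩⁻¹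
    have h4 : Commute x (((bar φ ^ i) x)⁻¹ * x * (bar φ ^ i) x) := by
      have h6 := congrArg Subtype.val h3.eq
      have h7 : x * (((bar φ ^ i) x)⁻¹ * x * (bar φ ^ i) x) =
          ((bar φ ^ i) x)⁻¹ * x * (bar φ ^ i) x * x := by simpa using h6
      exact h7
    have h5 : cm x ((bar φ ^ i) x) = x⁻¹ * (((bar φ ^ i) x)⁻¹ * x * (bar φ ^ i) x) := by
      unfold cm
      group
    rw [h5]
    exact ((Commute.refl x).inv_right.mul_right h4).symm
  intro n g hg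
  have hy : (QuotientGroup.mk' (rad G) g) ^ 3 ^ n = 1 := by rw [← map_pow, hg, map_one]
  apply (QuotientGroup.eq_one_iff (N := rad G) g).1
  exact bar_law_one hS r2 Nat.prime_three (by norm_num) law _ (h1 _ n hy)

theorem rad5 {p : ℕ} {φ : MulAut G} (hS : Spl p φ)
    (r2 : ∀ (n : ℕ) (g : G), g ^ 2 ^ n = 1 → g ∈ rad G) {q : ℕ} (hq : q.Prime) (h2 : q ≠ 2)
    (h : Hyp φ q 2) : ∀ (n : ℕ) (g : G), g ^ q ^ n = 1 → g ∈ rad G := by
  apply Pool.Agent.H59.SD.mem_rad_two hS r2 hq h2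
  rintro g ⟨m, hg⟩
  left
  intro i
  have m1 : g ∈ Pr φ g i := Subgroup.subset_closure (Set.mem_insert _ _)
  have m2 : (φ ^ i) g ∈ Pr φ g i := Subgroup.subset_closure (Set.mem_insert_of_mem _ rfl)
  have h3 : ⁅g, ⁅g, (φ ^ i) g⁆⁆ ∈ ⁅⁅Pr φ g i, Pr φ g i⁆, Pr φ g i⁆ := by
    rw [Subgroup.commutator_comm]
    exact Subgroup.commutator_mem_commutator m1 (Subgroup.commutator_mem_commutator m1 m2)
  have h4 : ⁅⁅Pr φ g i, Pr φ g i⁆, Pr φ g i⁆ = ⊥ := h g m hg i
  rw [h4, Subgroup.mem_bot] at h3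
  rw [h3]
  exact one_mem _

theorem main {p : ℕ} {φ : MulAut G} (hS : Spl p φ) (h2 : Hyp φ 2 3)
    (h3 : Hyp φ 3 3 ∨
      ((∃ e : ℕ, ∀ (k : G) (m : ℕ), k ^ 3 ^ m = 1 → k ^ 3 ^ e = 1) ∧ Hyp φ 3 5))
    (h5 : ∀ q : ℕ, q.Prime → 5 ≤ q → Hyp φ q 2) :
    LF G ∧ ∀ K : Subgroup G, K.FG → Group.IsNilpotent K := by
  have r2 := rad2 hS h2
  have hLF : LF G := by
    apply Pool.Agent.H59.PO.lf_of hS
    intro q hq n g hg
    rcases Nat.lt_or_ge q 5 with hq5 | hq5
    · have h23 : q = 2 ∨ q = 3 := by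
        have h1 := hq.two_le
        have h4 : q ≠ 4 := by rintro rfl; revert hq; decide
        omega
      rcases h23 with rfl | rfl
      · exact r2 n g hg
      · exact rad3 hS r2 h3 n g hg
    · exact rad5 hS r2 hq (by omega) (h5 q hq hq5) n g hg
  exact ⟨hLF, fun K hK => Pool.Agent.H59.PO.loc_nil hS hLF K hK⟩

end Pool.Agent.H59.FE
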