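import Pool.Agent.H83.BF.Pow

/-! Powers commute in `2`-groups of class three. -/

set_option autoImplicit false

open scoped commutatorElement

namespace Pool.Agent.H59.FE

open Pool.Agent.H83.BF

universe u

variable {G : Type u} [Group G]

theorem choose_pow (n : ℕ) : (2 ^ (n + 1)).choose 2 = 2 ^ n * (2 ^ (n + 1) - 1) := by
  rw [Nat.choose_two_right, pow_succ]
  have : 2 ^ n * 2 * (2 ^ n * 2 - 1) = 2 ^ n * (2 ^ n * 2 - 1) * 2 := by ring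
  rw [this, Nat.mul_div_cancel _ (by norm_num)]

/-- the triple commutators have smaller exponent -/
theorem sq_exp {S : Subgroup G} (hz : ∀ x ∈ ⁅⁅S, S⁆, S⁆, ∀ y ∈ S, Commute x y) (n : ℕ)
    (hexp : ∀ k ∈ S, k ^ 2 ^ (n + 2) = 1) (b c : G) (hb : b ∈ S) (hc : c ∈ ⁅S, S⁆)
    (hcS : c ∈ S) : ⁅b, c⁆ ^ 2 ^ (n + 1) = 1 := by
  have hd : ⁅b, c⁆ ∈ ⁅⁅S, S⁆, S⁆ := by
    rw [Subgroup.commutator_comm]
    exact Subgroup.commutator_mem_commutator hb hc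
  have h1 := mul_pow_comm c b (hz _ hd _ hcS) (hz _ hd _ hb) (2 ^ (n + 2))
  rw [hexp _ (mul_mem hcS hb), hexp _ hcS, hexp _ hb, one_mul, one_mul, choose_pow] at h1
  have hdS : ⁅b, c⁆ ∈ S := by
    rw [commutatorElement_def]
    exact mul_mem (mul_mem (mul_mem hb hcS) (inv_mem hb)) (inv_mem hcS)
  have h2 := hexp _ hdS
  have h3 : 2 ^ (n + 1) * (2 ^ (n + 2) - 1) + 2 ^ (n + 1) = 2 ^ (n + 1) * 2 ^ (n + 2) := by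
    have : 1 ≤ 2 ^ (n + 2) := Nat.one_le_two_pow
    calc 2 ^ (n + 1) * (2 ^ (n + 2) - 1) + 2 ^ (n + 1)
        = 2 ^ (n + 1) * ((2 ^ (n + 2) - 1) + 1) := by ring
      _ = _ := by rw [Nat.sub_add_cancel this]
  have h4 : ⁅b, c⁆ ^ (2 ^ (n + 1) * 2 ^ (n + 2)) = 1 := by
    rw [mul_comm, pow_mul, h2, one_pow]
  rw [← h3, pow_add, ← h1, one_mul] at h4
  exact h4

theorem pow_comm_two {S : Subgroup G} (h3 : S.lowerCentralSeries 3 = ⊥) (n : ℕ)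
    (hexp : ∀ k ∈ S, k ^ 2 ^ (n + 2) = 1) (a b : G) (ha : a ∈ S) (hb : b ∈ S) :
    Commute (a ^ 2 ^ (n + 1)) (b ^ 2 ^ (n + 1)) := by
  have hz : ∀ x ∈ ⁅⁅S, S⁆, S⁆, ∀ y ∈ S, Commute x y := by
    intro x hx y hy
    have h1 : ⁅x, y⁆ ∈ ⁅⁅⁅S, S⁆, S⁆, S⁆ := Subgroup.commutator_mem_commutator hx hy
    have h2 : ⁅⁅⁅S, S⁆, S⁆, S⁆ = ⊥ := h3
    rw [h2, Subgroup.mem_bot] at h1
    exact commutatorElement_eq_one_iff_commute.1 h1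
  have hc : ⁅a, b⁆ ∈ ⁅S, S⁆ := Subgroup.commutator_mem_commutator ha hb
  have hcS : ⁅a, b⁆ ∈ S := by
    rw [commutatorElement_def]
    exact mul_mem (mul_mem (mul_mem ha hb) (inv_mem ha)) (inv_mem hb)
  have z1m : ⁅a, ⁅a, b⁆⁆ ∈ ⁅⁅S, S⁆, S⁆ := by
    rw [Subgroup.commutator_comm]
    exact Subgroup.commutator_mem_commutator ha hc
  have z2m : ⁅b, ⁅a, b⁆⁆ ∈ ⁅⁅S, S⁆, S⁆ := by
    rw [Subgroup.commutator_comm]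
    exact Subgroup.commutator_mem_commutator hb hc
  have e1 := sq_exp hz n hexp a ⁅a, b⁆ ha hc hcS
  have e2 := sq_exp hz n hexp b ⁅a, b⁆ hb hc hcS
  have p1 := comm_pow a b (hz _ z1m _ ha) (hz _ z1m _ hcS) (2 ^ (n + 1))
  -- `b` commutes with `[a^m, b]`
  have q1 : Commute b (⁅a, b⁆ ^ 2 ^ (n + 1)) := by
    have h1 : b * ⁅a, b⁆ * b⁻¹ = ⁅b, ⁅a, b⁆⁆ * ⁅a, b⁆ := by
      rw [commutatorElement_def b ⁅a, b⁆]; group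
    have h2 : b * ⁅a, b⁆ ^ 2 ^ (n + 1) * b⁻¹ = ⁅a, b⁆ ^ 2 ^ (n + 1) := by
      rw [← conj_pow, h1, (hz _ z2m _ hcS).mul_pow, e2, one_mul]
    show b * ⁅a, b⁆ ^ 2 ^ (n + 1) = ⁅a, b⁆ ^ 2 ^ (n + 1) * b
    calc b * ⁅a, b⁆ ^ 2 ^ (n + 1) = (b * ⁅a, b⁆ ^ 2 ^ (n + 1) * b⁻¹) * b := by group
      _ = _ := by rw [h2]
  have q2 : Commute b ⁅a ^ 2 ^ (n + 1), b⁆ := by
    rw [p1]
    exact q1.mul_right ((hz _ z1m _ hb).symm.pow_right _)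
  have q3 : ⁅a ^ 2 ^ (n + 1), b⁆ ^ 2 ^ (n + 1) = 1 := by
    have s1 : (⁅a, b⁆ ^ 2 ^ (n + 1)) ^ 2 ^ (n + 1) = 1 := by
      rw [← pow_mul, ← pow_add]
      have : n + 1 + (n + 1) = (n + 2) + n := by ring
      rw [this, pow_add, pow_mul, hexp _ hcS, one_pow]
    have s2 : (⁅a, ⁅a, b⁆⁆ ^ (2 ^ (n + 1)).choose 2) ^ 2 ^ (n + 1) = 1 := by
      rw [← pow_mul, Nat.mul_comm, pow_mul, e1, one_pow]
    rw [p1, ((hz _ z1m _ hcS).symm.pow_pow _ _).mul_pow, s1, s2, one_mul]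
  -- now `[a^m, b^m] = [a^m, b]^m`
  have q4 : ∀ k : ℕ, a ^ 2 ^ (n + 1) * b ^ k * (a ^ 2 ^ (n + 1))⁻¹ =
      (⁅a ^ 2 ^ (n + 1), b⁆ * b) ^ k := by
    intro k
    rw [← conj_pow]
    congr 1
    rw [commutatorElement_def]
    group
  have q5 := q4 (2 ^ (n + 1))
  rw [q2.symm.mul_pow, q3, one_mul] at q5
  show a ^ 2 ^ (n + 1) * b ^ 2 ^ (n + 1) = b ^ 2 ^ (n + 1) * a ^ 2 ^ (n + 1)
  calc a ^ 2 ^ (n + 1) * b ^ 2 ^ (n + 1) =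
      (a ^ 2 ^ (n + 1) * b ^ 2 ^ (n + 1) * (a ^ 2 ^ (n + 1))⁻¹) * a ^ 2 ^ (n + 1) := by group
    _ = _ := by rw [q5]

end Pool.Agent.H59.FE
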