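import Pool.Agent.H59.FE.Q2

/-! Powers commute in class three, no bound on the exponent. -/

set_option autoImplicit false

open scoped commutatorElement

namespace Pool.Agent.H59.FE

open Pool.Agent.H83.BF

universe u

variable {G : Type u} [Group G]

theorem one_pow_aux {a c : G} (h : Commute ⁅a, c⁆ a) {N : ℕ} (ha : a ^ N = 1) :
    ⁅a, c⁆ ^ N = 1 := by
  have h0 : ⁅a, ⁅a, c⁆⁆ = 1 := commutatorElement_eq_one_iff_commute.2 h.symm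
  have h1 := comm_pow a c (by rw [h0]; exact Commute.one_left _)
    (by rw [h0]; exact Commute.one_left _) N
  rw [h0, one_pow, mul_one, ha, commutatorElement_one_left] at h1
  exact h1.symm

theorem pow_comm_two' {S : Subgroup G} (h3 : S.lowerCentralSeries 3 = ⊥) (n : ℕ)
    (a b : G) (ha : a ∈ S) (hb : b ∈ S) (haN : a ^ 2 ^ (n + 3) = 1) (hbN : b ^ 2 ^ (n + 3) = 1) :
    Commute (a ^ 2 ^ (n + 2)) (b ^ 2 ^ (n + 2)) := by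
  have hz : ∀ x ∈ ⁅⁅S, S⁆, S⁆, ∀ y ∈ S, Commute x y := by
    intro x hx y hy
    have h1 : ⁅x, y⁆ ∈ ⁅⁅⁅S, S⁆, S⁆, S⁆ := Subgroup.commutator_mem_commutator hx hy
    have h2 : ⁅⁅⁅S, S⁆, S⁆, S⁆ = ⊥ := h3
    rw [h2, Subgroup.mem_bot] at h1
    exact commutatorElement_eq_one_iff_commute.1 h1
  have hc : ⁅a, b⁆ ∈ ⁅S, S⁆ := Subgroup.commutator_mem_commutator ha hb
  have hcS : ⁅a, b⁆ ∈ S := by
    rw [commutatorElement_def]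
    exact mul_mem (mul_mem (mul_mem ha hb) (inv_mem ha)) (inv_mem hb)
  have z1m : ⁅a, ⁅a, b⁆⁆ ∈ ⁅⁅S, S⁆, S⁆ := by
    rw [Subgroup.commutator_comm]
    exact Subgroup.commutator_mem_commutator ha hc
  have z2m : ⁅b, ⁅a, b⁆⁆ ∈ ⁅⁅S, S⁆, S⁆ := by
    rw [Subgroup.commutator_comm]
    exact Subgroup.commutator_mem_commutator hb hc
  have e1 : ⁅a, ⁅a, b⁆⁆ ^ 2 ^ (n + 3) = 1 := one_pow_aux (hz _ z1m _ ha) haN
  have e2 : ⁅b, ⁅a, b⁆⁆ ^ 2 ^ (n + 3) = 1 := one_pow_aux (hz _ z2m _ hb) hbN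
  -- `c ^ (2 N) = 1`
  have e3 : ⁅a, b⁆ ^ 2 ^ (n + 4) = 1 := by
    have p1 := comm_pow a b (hz _ z1m _ ha) (hz _ z1m _ hcS) (2 ^ (n + 3))
    rw [haN, commutatorElement_one_left, choose_pow] at p1
    have p2 := congrArg (fun t => t ^ 2) p1.symm
    simp only [one_pow] at p2
    rw [((hz _ z1m _ hcS).symm.pow_pow _ _).mul_pow, ← pow_mul, ← pow_mul] at p2
    have p3 : 2 ^ (n + 2) * (2 ^ (n + 3) - 1) * 2 = 2 ^ (n + 3) * (2 ^ (n + 3) - 1) := by ring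
    rw [p3, pow_mul ⁅a, ⁅a, b⁆⁆, e1, one_pow, mul_one, ← pow_succ] at p2
    exact p2
  have p1 := comm_pow a b (hz _ z1m _ ha) (hz _ z1m _ hcS) (2 ^ (n + 2))
  set c := ⁅a, b⁆ with hcd
  set z1 := ⁅a, c⁆ with hz1
  set z2 := ⁅b, c⁆ with hz2
  have m1 : (2 ^ (n + 2)).choose 2 * 2 ^ (n + 2) = 2 ^ (n + 3) * (2 ^ n * (2 ^ (n + 2) - 1)) := by
    rw [choose_pow]
    ring
  have m2 : 2 ^ (n + 2) * 2 ^ (n + 2) = 2 ^ (n + 4) * 2 ^ n := by ring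
  have q3 : ⁅a ^ 2 ^ (n + 2), b⁆ ^ 2 ^ (n + 2) = 1 := by
    rw [p1, ((hz _ z1m _ hcS).symm.pow_pow _ _).mul_pow, ← pow_mul, ← pow_mul, m1, m2,
      pow_mul c, e3, one_pow, pow_mul z1, e1, one_pow, mul_one]
  -- `[b, d] = z2 ^ m`
  have q4 : ⁅b, ⁅a ^ 2 ^ (n + 2), b⁆⁆ = z2 ^ 2 ^ (n + 2) := by
    have h1 : b * c * b⁻¹ = z2 * c := by
      rw [hz2, commutatorElement_def b c]; group
    have h2 : b * c ^ 2 ^ (n + 2) * b⁻¹ = z2 ^ 2 ^ (n + 2) * c ^ 2 ^ (n + 2) := by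
      rw [← conj_pow, h1, (hz _ z2m _ hcS).mul_pow]
    have h3 : b * (z1 ^ (2 ^ (n + 2)).choose 2) * b⁻¹ = z1 ^ (2 ^ (n + 2)).choose 2 := by
      have := ((hz _ z1m _ hb).symm.pow_right ((2 ^ (n + 2)).choose 2)).eq
      rw [this]; group
    rw [p1, commutatorElement_def]
    have h4 : b * (c ^ 2 ^ (n + 2) * z1 ^ (2 ^ (n + 2)).choose 2) * b⁻¹ =
        (b * c ^ 2 ^ (n + 2) * b⁻¹) * (b * (z1 ^ (2 ^ (n + 2)).choose 2) * b⁻¹) := by group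
    rw [h4, h2, h3]
    group
  have hd : Commute ⁅b, ⁅a ^ 2 ^ (n + 2), b⁆⁆ b := by
    rw [q4]
    exact (hz _ z2m _ hb).pow_left _
  have hd2 : Commute ⁅b, ⁅a ^ 2 ^ (n + 2), b⁆⁆ ⁅a ^ 2 ^ (n + 2), b⁆ := by
    rw [q4]
    refine (hz _ z2m _ ?_).pow_left _
    rw [commutatorElement_def]
    exact mul_mem (mul_mem (mul_mem (pow_mem ha _) hb) (inv_mem (pow_mem ha _))) (inv_mem hb)
  have q5 := mul_pow_comm ⁅a ^ 2 ^ (n + 2), b⁆ b hd2 hd (2 ^ (n + 2))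
  rw [q4, ← pow_mul, Nat.mul_comm (2 ^ (n + 2)), m1, pow_mul z2, e2, one_pow, mul_one, q3,
    one_mul] at q5
  have q6 : a ^ 2 ^ (n + 2) * b ^ 2 ^ (n + 2) * (a ^ 2 ^ (n + 2))⁻¹ =
      (⁅a ^ 2 ^ (n + 2), b⁆ * b) ^ 2 ^ (n + 2) := by
    rw [← conj_pow]
    congr 1
    rw [commutatorElement_def]
    group
  rw [q5] at q6
  show a ^ 2 ^ (n + 2) * b ^ 2 ^ (n + 2) = b ^ 2 ^ (n + 2) * a ^ 2 ^ (n + 2)
  calc a ^ 2 ^ (n + 2) * b ^ 2 ^ (n + 2) =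
      (a ^ 2 ^ (n + 2) * b ^ 2 ^ (n + 2) * (a ^ 2 ^ (n + 2))⁻¹) * a ^ 2 ^ (n + 2) := by group
    _ = _ := by rw [q6]

end Pool.Agent.H59.FE
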