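import Pool.Agent.H59.FE.Q2b

/-! Powers commute in class three, odd exponent. -/

set_option autoImplicit false

open scoped commutatorElement

namespace Pool.Agent.H59.FE

open Pool.Agent.H83.BF

universe u

variable {G : Type u} [Group G]

theorem choose_odd {q : ℕ} (hq : Odd q) (n : ℕ) : ∃ t : ℕ, (q ^ n).choose 2 = q ^ n * t := by
  obtain ⟨k, hk⟩ := hq.pow (n := n)
  refine ⟨k, ?_⟩
  rw [Nat.choose_two_right, hk]
  have : (2 * k + 1) * (2 * k + 1 - 1) = (2 * k + 1) * k * 2 := by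
    rw [Nat.add_sub_cancel]
    ring
  rw [this, Nat.mul_div_cancel _ (by norm_num)]

theorem pow_comm_odd {q : ℕ} (hq : Odd q) {S : Subgroup G} (h3 : S.lowerCentralSeries 3 = ⊥)
    (n : ℕ) (a b : G) (ha : a ∈ S) (hb : b ∈ S) (haN : a ^ q ^ (n + 2) = 1)
    (hbN : b ^ q ^ (n + 2) = 1) : Commute (a ^ q ^ (n + 1)) (b ^ q ^ (n + 1)) := by
  have hz : ∀ x ∈ ⁅⁅S, S⁆, S⁆, ∀ y ∈ S, Commute x y := by
    intro x hx y hy
    have h1 : ⁅x, y⁆ ∈ ⁅⁅⁅S, S⁆, S⁆, S⁆ := Subgroup.commutator_mem_commutator hx hy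
    have h2 : ⁅⁅⁅S, S⁆, S⁆, S⁆ = ⊥ := h3
    rw [h2, Subgroup.mem_bot] at h1
    exact commutatorElement_eq_one_iff_commute.1 h1
  have hc : ⁅a, b⁆ ∈ ⁅S, S⁆ := Subgroup.commutator_mem_commutator ha hb
  have hcS : ⁅a, b⁆ ∈ S := by
    rw [commutatorElement_def]
    exact mul_mem (mul_mem (mul_mem ha hb) (inv_mem ha)) (inv_mem hb)
  have z1m : ⁅a, ⁅a, b⁆⁆ ∈ ⁅⁅S, S⁆, S⁆ := by
    rw [Subgroup.commutator_comm]
    exact Subgroup.commutator_mem_commutator ha hc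
  have z2m : ⁅b, ⁅a, b⁆⁆ ∈ ⁅⁅S, S⁆, S⁆ := by
    rw [Subgroup.commutator_comm]
    exact Subgroup.commutator_mem_commutator hb hc
  have e1 : ⁅a, ⁅a, b⁆⁆ ^ q ^ (n + 2) = 1 := one_pow_aux (hz _ z1m _ ha) haN
  have e2 : ⁅b, ⁅a, b⁆⁆ ^ q ^ (n + 2) = 1 := one_pow_aux (hz _ z2m _ hb) hbN
  have e3 : ⁅a, b⁆ ^ q ^ (n + 2) = 1 := by
    have p1 := comm_pow a b (hz _ z1m _ ha) (hz _ z1m _ hcS) (q ^ (n + 2))
    obtain ⟨t, ht⟩ := choose_odd hq (n + 2)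
    rw [haN, commutatorElement_one_left, ht, pow_mul ⁅a, ⁅a, b⁆⁆, e1, one_pow, mul_one] at p1
    exact p1.symm
  have p1 := comm_pow a b (hz _ z1m _ ha) (hz _ z1m _ hcS) (q ^ (n + 1))
  obtain ⟨t, ht⟩ := choose_odd hq (n + 1)
  set c := ⁅a, b⁆ with hcd
  set z1 := ⁅a, c⁆ with hz1
  set z2 := ⁅b, c⁆ with hz2
  have m1 : (q ^ (n + 1)).choose 2 * q ^ (n + 1) = q ^ (n + 2) * (q ^ n * t) := by
    rw [ht]
    ring
  have m2 : q ^ (n + 1) * q ^ (n + 1) = q ^ (n + 2) * q ^ n := by ring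
  have q3 : ⁅a ^ q ^ (n + 1), b⁆ ^ q ^ (n + 1) = 1 := by
    rw [p1, ((hz _ z1m _ hcS).symm.pow_pow _ _).mul_pow, ← pow_mul, ← pow_mul, m1, m2,
      pow_mul c, e3, one_pow, pow_mul z1, e1, one_pow, mul_one]
  -- `[b, d] = z2 ^ m`
  have q4 : ⁅b, ⁅a ^ q ^ (n + 1), b⁆⁆ = z2 ^ q ^ (n + 1) := by
    have h1 : b * c * b⁻¹ = z2 * c := by
      rw [hz2, commutatorElement_def b c]; group
    have h2 : b * c ^ q ^ (n + 1) * b⁻¹ = z2 ^ q ^ (n + 1) * c ^ q ^ (n + 1) := by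
      rw [← conj_pow, h1, (hz _ z2m _ hcS).mul_pow]
    have h3 : b * (z1 ^ (q ^ (n + 1)).choose 2) * b⁻¹ = z1 ^ (q ^ (n + 1)).choose 2 := by
      have := ((hz _ z1m _ hb).symm.pow_right ((q ^ (n + 1)).choose 2)).eq
      rw [this]; group
    rw [p1, commutatorElement_def]
    have h4 : b * (c ^ q ^ (n + 1) * z1 ^ (q ^ (n + 1)).choose 2) * b⁻¹ =
        (b * c ^ q ^ (n + 1) * b⁻¹) * (b * (z1 ^ (q ^ (n + 1)).choose 2) * b⁻¹) := by group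
    rw [h4, h2, h3]
    group
  have hd : Commute ⁅b, ⁅a ^ q ^ (n + 1), b⁆⁆ b := by
    rw [q4]
    exact (hz _ z2m _ hb).pow_left _
  have hd2 : Commute ⁅b, ⁅a ^ q ^ (n + 1), b⁆⁆ ⁅a ^ q ^ (n + 1), b⁆ := by
    rw [q4]
    refine (hz _ z2m _ ?_).pow_left _
    rw [commutatorElement_def]
    exact mul_mem (mul_mem (mul_mem (pow_mem ha _) hb) (inv_mem (pow_mem ha _))) (inv_mem hb)
  have q5 := mul_pow_comm ⁅a ^ q ^ (n + 1), b⁆ b hd2 hd (q ^ (n + 1))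
  rw [q4, ← pow_mul, Nat.mul_comm (q ^ (n + 1)), m1, pow_mul z2, e2, one_pow, mul_one, q3,
    one_mul] at q5
  have q6 : a ^ q ^ (n + 1) * b ^ q ^ (n + 1) * (a ^ q ^ (n + 1))⁻¹ =
      (⁅a ^ q ^ (n + 1), b⁆ * b) ^ q ^ (n + 1) := by
    rw [← conj_pow]
    congr 1
    rw [commutatorElement_def]
    group
  rw [q5] at q6
  show a ^ q ^ (n + 1) * b ^ q ^ (n + 1) = b ^ q ^ (n + 1) * a ^ q ^ (n + 1)
  calc a ^ q ^ (n + 1) * b ^ q ^ (n + 1) =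
      (a ^ q ^ (n + 1) * b ^ q ^ (n + 1) * (a ^ q ^ (n + 1))⁻¹) * a ^ q ^ (n + 1) := by group
    _ = _ := by rw [q6]

end Pool.Agent.H59.FE
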