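import Pool.Agent.H59.FE.Main

/-! Splitting automorphisms: no bound for the orders. -/

set_option autoImplicit false

open scoped commutatorElement

namespace Pool.Agent.H59.FE

open Pool.Agent.H76.MB (LF rad)
open Pool.Agent.H59.PO (Spl Orb prod_tail comm_list orb_finite orb_pgroup mem_orb orb_pow_mem)
open Pool.Agent.H59.SD (bar bar_pow spl_bar)
open H81.SC (cj cm)

universe u

theorem cpow_right {Q : Type u} [Group Q] {x y : Q} (h2 : Commute ⁅x, y⁆ y) (m : ℕ) :
    ⁅x, y ^ m⁆ = ⁅x, y⁆ ^ m := by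
  have h3 : x * y ^ m * x⁻¹ = ⁅x, y⁆ ^ m * y ^ m := by
    rw [← conj_pow, ← h2.mul_pow]
    congr 1
    rw [commutatorElement_def]
    group
  rw [commutatorElement_def, h3]
  group

theorem cpow_left {Q : Type u} [Group Q] {x y : Q} (h1 : Commute ⁅x, y⁆ x) (m : ℕ) :
    ⁅x ^ m, y⁆ = ⁅x, y⁆ ^ m := by
  have h3 : y * (x⁻¹) ^ m * y⁻¹ = (x⁻¹) ^ m * ⁅x, y⁆ ^ m := by
    rw [← conj_pow, ← h1.symm.inv_left.mul_pow]
    congr 1
    rw [commutatorElement_def]
    group
  have h4 : ⁅x ^ m, y⁆ = x ^ m * (y * (x⁻¹) ^ m * y⁻¹) := by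
    rw [commutatorElement_def, inv_pow]
    group
  rw [h4, h3, inv_pow]
  group

theorem key_type {Q : Type u} [Group Q] {q : ℕ} {A : Q} (hA : A ^ q = 1) (b : Q) (n : ℕ) :
    ⁅A, b ^ q ^ n⁆ ∈ (⊤ : Subgroup Q).lowerCentralSeries (n + 1) := by
  induction n with
  | zero =>
    rw [pow_zero, pow_one]
    exact Subgroup.commutator_mem_commutator (Subgroup.mem_top _) (Subgroup.mem_top _)
  | succ n ih =>
    obtain ⟨B, hB⟩ : ∃ B, B = b ^ q ^ n := ⟨_, rfl⟩
    rw [← hB] at ih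
    rw [pow_succ, pow_mul, ← hB]
    obtain ⟨L, hL⟩ : ∃ L, L = (⊤ : Subgroup Q).lowerCentralSeries (n + 1 + 1) := ⟨_, rfl⟩
    have hn : L.Normal := by rw [hL]; infer_instance
    have hc : ∀ k : Q, ⁅⁅A, B⁆, k⁆ ∈ L := fun k => by
      rw [hL]
      exact Subgroup.commutator_mem_commutator ih (Subgroup.mem_top _)
    have hq : ∀ k : Q, Commute ⁅QuotientGroup.mk' L A, QuotientGroup.mk' L B⁆
        (QuotientGroup.mk' L k) := fun k => by
      rw [← commutatorElement_eq_one_iff_commute, ← map_commutatorElement,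
        ← map_commutatorElement]
      exact (QuotientGroup.eq_one_iff (N := L) _).2 (hc k)
    rw [← hL]
    apply (QuotientGroup.eq_one_iff (N := L) _).1
    show QuotientGroup.mk' L ⁅A, B ^ q⁆ = 1
    rw [map_commutatorElement, map_pow, cpow_right (hq B), ← cpow_left (hq A), ← map_pow, hA,
      map_one, commutatorElement_one_left]

variable {G : Type u} [Group G]

theorem key_sub {K : Subgroup G} {c : ℕ} (hK : K.lowerCentralSeries (c + 1) = ⊥) {q : ℕ} {A b : G}
    (hA : A ∈ K) (hb : b ∈ K) (hq : A ^ q = 1) : Commute A (b ^ q ^ c) := by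
  have h1 := key_type (Q := K) (q := q) (A := ⟨A, hA⟩) (Subtype.ext (by simpa using hq)) ⟨b, hb⟩ c
  have h2 : K.subtype ⁅(⟨A, hA⟩ : K), ⟨b, hb⟩ ^ q ^ c⁆ ∈
      ((⊤ : Subgroup K).lowerCentralSeries (c + 1)).map K.subtype :=
    Subgroup.mem_map_of_mem _ h1
  rw [Subgroup.top_subtype_lowerCentralSeries, hK, Subgroup.mem_bot, map_commutatorElement,
    map_pow] at h2
  exact commutatorElement_eq_one_iff_commute.1 h2

/-- the orders are bounded modulo the radical -/
theorem order_bdd {p : ℕ} {φ : MulAut G} (hS : Spl p φ) (hr : rad G = ⊥) {q c : ℕ}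
    (h : Hyp φ q (c + 1)) (m : ℕ) : ∀ k : G, k ^ q ^ m = 1 → k ^ q ^ c = 1 := by
  induction m with
  | zero =>
    intro k hk
    rw [pow_zero, pow_one] at hk
    rw [hk, one_pow]
  | succ m ih =>
    intro k hk
    rcases Nat.lt_or_ge m c with hm | hm
    · obtain ⟨d, hd⟩ := Nat.exists_eq_add_of_le (Nat.succ_le_of_lt hm)
      rw [hd, Nat.succ_eq_add_one, pow_add, pow_mul, hk, one_pow]
    · obtain ⟨d, hd⟩ := Nat.exists_eq_add_of_le hm
      apply ih
      refine down hS hr k (fun a ha i => ?_) hk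
      have h1 : Commute (a ^ q ^ m) (((φ ^ i) a) ^ q ^ c) :=
        key_sub (h a _ ha i) (pow_mem (Subgroup.subset_closure (Set.mem_insert _ _)) _)
          (Subgroup.subset_closure (Set.mem_insert_of_mem _ rfl)) (by rw [← pow_mul, ← pow_succ, ha])
      have h2 : ((φ ^ i) a) ^ q ^ m = (((φ ^ i) a) ^ q ^ c) ^ q ^ d := by
        rw [← pow_mul, ← pow_add, ← hd]
      rw [h2]
      exact h1.pow_right _

/-- elements of order three -/
theorem rad3' {p : ℕ} {φ : MulAut G} (hS : Spl p φ)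
    (r2 : ∀ (n : ℕ) (g : G), g ^ 2 ^ n = 1 → g ∈ rad G) (h : Hyp φ 3 5) :
    ∀ (n : ℕ) (g : G), g ^ 3 ^ n = 1 → g ∈ rad G := by
  have ht : ∀ g : G, IsOfFinOrder g := fun g => H81.SC.ord_ne hS.prime (hS.cop g)
  have hB := spl_bar hS
  have h1 : ∀ (k : G ⧸ rad G) (m : ℕ), k ^ 3 ^ m = 1 → k ^ 3 = 1 :=
    order_le hB rad_bar (q := 3)
      (fun n hb a m ha i => comm3 hB (hyp_bar ht Nat.prime_three h) n hb a m ha i) 4
      (fun k m hk => order_bdd hB rad_bar (c := 4) (hyp_bar ht Nat.prime_three h) m k hk)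
  have law : ∀ (x : G ⧸ rad G) (i : ℕ), x ^ 3 = 1 → Commute (cm x ((bar φ ^ i) x)) x := by
    intro x i hx
    have hexp : ∀ k ∈ Pr (bar φ) x i, k ^ 3 ^ 1 = 1 :=
      pr_exp hB Nat.prime_three (e := 1) (fun k m hk => by rw [pow_one]; exact h1 k m hk) x 1
        (by rw [pow_one]; exact hx) i
    have m1 : x ∈ Pr (bar φ) x i := Subgroup.subset_closure (Set.mem_insert _ _)
    have m2 : (bar φ ^ i) x ∈ Pr (bar φ) x i :=
      Subgroup.subset_closure (Set.mem_insert_of_mem _ rfl)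
    have h3 := Pool.Agent.H83.BF.comm_conj_three (Γ := Pr (bar φ) x i)
      (fun k => Subtype.ext (by
        have := hexp (k : G ⧸ rad G) k.2
        rw [pow_one] at this
        rw [Subgroup.coe_pow, this, Subgroup.coe_one])) ⟨x, m1⟩ ⟨(bar φ ^ i) x, m2⟩⁻¹
    have h4 : Commute x (((bar φ ^ i) x)⁻¹ * x * (bar φ ^ i) x) := by
      have h6 := congrArg Subtype.val h3.eq
      have h7 : x * (((bar φ ^ i) x)⁻¹ * x * (bar φ ^ i) x) =
          ((bar φ ^ i) x)⁻¹ * x * (bar φ ^ i) x * x := by simpa using h6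
      exact h7
    have h5 : cm x ((bar φ ^ i) x) = x⁻¹ * (((bar φ ^ i) x)⁻¹ * x * (bar φ ^ i) x) := by
      unfold cm
      group
    rw [h5]
    exact ((Commute.refl x).inv_right.mul_right h4).symm
  intro n g hg
  have hy : (QuotientGroup.mk' (rad G) g) ^ 3 ^ n = 1 := by rw [← map_pow, hg, map_one]
  apply (QuotientGroup.eq_one_iff (N := rad G) g).1
  exact bar_law_one hS r2 Nat.prime_three (by norm_num) law _ (h1 _ n hy)

theorem main' {p : ℕ} {φ : MulAut G} (hS : Spl p φ) (h2 : Hyp φ 2 3) (h3 : Hyp φ 3 5)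
    (h5 : ∀ q : ℕ, q.Prime → 5 ≤ q → Hyp φ q 2) :
    LF G ∧ ∀ K : Subgroup G, K.FG → Group.IsNilpotent K := by
  have r2 := rad2 hS h2
  have hLF : LF G := by
    apply Pool.Agent.H59.PO.lf_of hS
    intro q hq n g hg
    rcases Nat.lt_or_ge q 5 with hq5 | hq5
    · have h23 : q = 2 ∨ q = 3 := by
        have h1 := hq.two_le
        have h4 : q ≠ 4 := by rintro rfl; revert hq; decide
        omega
      rcases h23 with rfl | rfl
      · exact r2 n g hg
      · exact rad3' hS r2 h3 n g hg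
    · exact rad5 hS r2 hq (by omega) (h5 q hq hq5) n g hg
  exact ⟨hLF, fun K hK => Pool.Agent.H59.PO.loc_nil hS hLF K hK⟩

end Pool.Agent.H59.FE
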